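import Mathlib
import Pool.Agent.H21.Fl5

namespace Pool.Agent.Results.MP_38b438_an.Counter

open Real MeasureTheory Set

/-- Borel probability measures on the circle ℝ/ℤ invariant under the doubling map. -/
def IsInv (μ : Measure UnitAddCircle) : Prop :=
  IsProbabilityMeasure μ ∧ μ.map (fun x => x + x) = μ

/-- Maximizing measures: invariant probability measures whose integral of f is the supremum. -/
def IsMaximizing (f : UnitAddCircle → ℝ) (μ : Measure UnitAddCircle) : Prop :=
  IsInv μ ∧ ∀ ν : Measure UnitAddCircle, IsInv ν → ∫ x, f x ∂ν ≤ ∫ x, f x ∂μ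

/-- Flowers: finite unions of closed non-degenerate arcs with X ∪ (X+1/2) = T and
X ∩ (X+1/2) = ∂X. -/
def IsFlower (X : Set UnitAddCircle) : Prop :=
  (∃ I : Finset (ℝ × ℝ), (∀ p ∈ I, p.1 < p.2) ∧
      X = ⋃ p ∈ I, (fun t : ℝ => (t : UnitAddCircle)) '' Icc p.1 p.2) ∧
    X ∪ (fun x => x + ((1 / 2 : ℝ) : UnitAddCircle)) '' X = univ ∧
    X ∩ (fun x => x + ((1 / 2 : ℝ) : UnitAddCircle)) '' X = frontier X

/-- The number of petals (connected components). -/
noncomputable def petals (X : Set UnitAddCircle) : ℕ∞ :=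
  {C | ∃ x ∈ X, C = connectedComponentIn X x}.encard

/-- The space V_n: odd-frequency real trigonometric polynomials of degree at most n, not all
coefficients zero. -/
def InV (n : ℕ) (f : UnitAddCircle → ℝ) : Prop :=
  ∃ a b : ℕ → ℝ, (∃ k ∈ (Finset.Icc 1 n).filter Odd, a k ≠ 0 ∨ b k ≠ 0) ∧
    ∀ t : ℝ, f t = ∑ k ∈ (Finset.Icc 1 n).filter Odd,
      (a k * cos (2 * π * k * t) + b k * sin (2 * π * k * t))

theorem result :
    (¬ ∀ n : ℕ, Odd n → ∀ f : UnitAddCircle → ℝ, InV n f → ∀ μ, IsMaximizing f μ →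
        ∃ X, IsFlower X ∧ petals X ≤ n ∧ μ.support ⊆ X) ∧
    ∃ f : UnitAddCircle → ℝ, InV 3 f ∧
      (∀ t : ℝ, f t = 1000 * cos (2 * π * t) + 255 * sin (2 * π * t)
        - 656 * cos (6 * π * t) - 286 * sin (6 * π * t)) ∧
      (∃ μ, IsMaximizing f μ) ∧
      ∀ μ, IsMaximizing f μ → ∀ X, IsFlower X → petals X ≤ 3 → ¬ μ.support ⊆ X := by
  have key : ∃ f : UnitAddCircle → ℝ, InV 3 f ∧
      (∀ t : ℝ, f t = 1000 * cos (2 * π * t) + 255 * sin (2 * π * t)
        - 656 * cos (6 * π * t) - 286 * sin (6 * π * t)) ∧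
      (∃ μ, IsMaximizing f μ) ∧
      ∀ μ, IsMaximizing f μ → ∀ X, IsFlower X → petals X ≤ 3 → ¬ μ.support ⊆ X := by
    let f : UnitAddCircle → ℝ := fun x => 1000 * (fourier 1 x).re + 255 * (fourier 1 x).im
      - 656 * (fourier 3 x).re - 286 * (fourier 3 x).im
    have hf : Continuous f := by
      have c1 : Continuous fun x : UnitAddCircle => fourier 1 x := (fourier 1).continuous
      have c3 : Continuous fun x : UnitAddCircle => fourier 3 x := (fourier 3).continuous
      exact (((continuous_const.mul (Complex.continuous_re.comp c1)).add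
        (continuous_const.mul (Complex.continuous_im.comp c1))).sub
        (continuous_const.mul (Complex.continuous_re.comp c3))).sub
        (continuous_const.mul (Complex.continuous_im.comp c3))
    have hfF : ∀ t : ℝ, f t = Pool.Agent.H21.Fl.F t := by
      intro t
      have e1 : fourier 1 (t : UnitAddCircle) = Complex.exp ((2 * π * t : ℝ) * Complex.I) := by
        rw [fourier_coe_apply]; congr 1; push_cast; ring
      have e3 : fourier 3 (t : UnitAddCircle) = Complex.exp ((2 * π * (3 * t) : ℝ) * Complex.I) := by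
        rw [fourier_coe_apply]; congr 1; push_cast; ring
      simp only [f, e1, e3, Complex.exp_ofReal_mul_I_re, Complex.exp_ofReal_mul_I_im,
        Pool.Agent.H21.Fl.F]
    have h6 : ∀ t : ℝ, 2 * π * (3 * t) = 6 * π * t := fun t => by ring
    refine ⟨f, ?_, ?_, ?_, ?_⟩
    · have hs : (Finset.Icc 1 3).filter Odd = {1, 3} := by decide
      refine ⟨fun k => if k = 1 then 1000 else -656, fun k => if k = 1 then 255 else -286,
        ⟨1, by rw [hs]; simp, Or.inl (by simp)⟩, fun t => ?_⟩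
      rw [hs, Finset.sum_pair (by norm_num), hfF, Pool.Agent.H21.Fl.F]
      have e1 : 2 * π * ((1 : ℕ) : ℝ) * t = 2 * π * t := by push_cast; ring
      have e3 : 2 * π * ((3 : ℕ) : ℝ) * t = 2 * π * (3 * t) := by push_cast; ring
      rw [e1, e3]
      norm_num
      ring
    · intro t
      rw [hfF, Pool.Agent.H21.Fl.F, h6]
    · obtain ⟨μ, h1, h2, h3⟩ := Pool.Agent.H21.Fl.exists_max f hf
      exact ⟨μ, ⟨h1, h2⟩, fun ν hν => h3 ν hν.1 hν.2⟩
    · rintro μ ⟨⟨h1, h2⟩, h3⟩ X hX hp hs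
      exact Pool.Agent.H21.Fl.main f hf hfF μ h2
        (h3 _ ⟨inferInstance, Pool.Agent.H21.Fl.nu_inv⟩) X hX.2.2 hs hp
  refine ⟨fun h => ?_, key⟩
  obtain ⟨f, hV, -, ⟨μ, hμ⟩, hn⟩ := key
  obtain ⟨X, h1, h2, h3⟩ := h 3 (by decide) f hV μ hμ
  exact hn μ hμ X h1 (by exact_mod_cast h2) h3

end Pool.Agent.Results.MP_38b438_an.Counter
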